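import Mathlib

/-!
# A 2-transitive Steiner 2-system whose automorphism group preserves a Steiner 3-system

The Steiner 2-system is the system of affine lines of a vector space of countably infinite
dimension over the field with four elements; the preserved Steiner 3-system is the system of
all `{a, b, c, a + b + c}`.
-/

set_option autoImplicit false

open Set

namespace Pool.Agent.Results.MP_19fe04_lc.SteinerPair

/-- `𝓑` is a Steiner `k`-system on `Ω`. -/
structure IsSteiner {Ω : Type} (k : ℕ) (𝓑 : Set (Set Ω)) : Prop where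
  /-- every block has at least `k + 1` elements -/
  block_size : ∀ B ∈ 𝓑, ((k + 1 : ℕ) : ℕ∞) ≤ B.encard
  /-- there are at least two blocks -/
  two_blocks : 𝓑.Nontrivial
  /-- any `k` distinct points lie in exactly one block -/
  unique_block : ∀ s : Finset Ω, s.card = k → ∃! B, B ∈ 𝓑 ∧ (s : Set Ω) ⊆ B

/-- The permutation `g` maps the family `𝓑` onto `𝓑`. -/
def MapsOnto {Ω : Type} (g : Equiv.Perm Ω) (𝓑 : Set (Set Ω)) : Prop :=
  (fun B => g '' B) '' 𝓑 = 𝓑

/-- The automorphism group of `(Ω, 𝓑)` is `k`-transitive. -/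
def AutTransitive {Ω : Type} (k : ℕ) (𝓑 : Set (Set Ω)) : Prop :=
  ∀ x y : Fin k → Ω, Function.Injective x → Function.Injective y →
    ∃ g : Equiv.Perm Ω, MapsOnto g 𝓑 ∧ ∀ i, g (x i) = y i

section General

variable {F V : Type} [Field F] [Fintype F] [CharP F 2] [AddCommGroup V] [Module F V]

lemma add_self_F (t : F) : t + t = 0 := CharTwo.add_self_eq_zero t

variable (F) in
include F in
lemma add_self_V (x : V) : x + x = 0 := by
  have h : ((1 : F) + 1) • x = 0 := by rw [add_self_F, zero_smul]
  rwa [add_smul, one_smul] at h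

variable (F) in
include F in
lemma neg_V (x : V) : -x = x := by
  rw [neg_eq_iff_add_eq_zero]
  exact add_self_V F x

/-- The line through `a` with direction `v`. -/
def lineSet (F : Type) {V : Type} [Field F] [AddCommGroup V] [Module F V] (a v : V) : Set V :=
  {x | ∃ t : F, x = a + t • v}

/-- All affine lines. -/
def Lines (F V : Type) [Field F] [AddCommGroup V] [Module F V] : Set (Set V) :=
  {ℓ | ∃ a v : V, v ≠ 0 ∧ ℓ = lineSet F a v}

/-- All 4-element sets with sum zero. -/
def Quads (V : Type) [AddCommGroup V] : Set (Set V) :=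
  {Q | ∃ T : Finset V, T.card = 4 ∧ ∑ x ∈ T, x = 0 ∧ Q = T}

/-- Collinearity. -/
def Col (F : Type) {V : Type} [Field F] [AddCommGroup V] [Module F V] (x y z : V) : Prop :=
  ∃ ℓ ∈ Lines F V, x ∈ ℓ ∧ y ∈ ℓ ∧ z ∈ ℓ

lemma mem_lineSet_self (a v : V) : a ∈ lineSet F a v := ⟨0, by rw [zero_smul, add_zero]⟩

lemma lineSet_eq {a v x y : V} (hx : x ∈ lineSet F a v) (hy : y ∈ lineSet F a v)
    (hxy : x ≠ y) : lineSet F a v = lineSet F x (y - x) := by
  obtain ⟨s, hs⟩ := hx
  obtain ⟨r, hr⟩ := hy
  have hne : r - s ≠ 0 := by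
    intro h
    apply hxy
    rw [hs, hr, sub_eq_zero.1 h]
  have hyx : y - x = (r - s) • v := by
    rw [hs, hr]; module
  ext z
  constructor
  · rintro ⟨t, rfl⟩
    refine ⟨(t - s) / (r - s), ?_⟩
    rw [hyx, smul_smul, div_mul_cancel₀ _ hne, hs]
    module
  · rintro ⟨t, rfl⟩
    refine ⟨s + t * (r - s), ?_⟩
    rw [hyx, hs]
    module

lemma col_iff {x y z : V} (hxy : x ≠ y) : Col F x y z ↔ ∃ t : F, z = x + t • (y - x) := by
  constructor
  · rintro ⟨ℓ, ⟨a, v, hv, rfl⟩, hx, hy, hz⟩
    rw [lineSet_eq hx hy hxy] at hz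
    exact hz
  · rintro ⟨t, ht⟩
    refine ⟨lineSet F x (y - x), ⟨x, y - x, sub_ne_zero.2 hxy.symm, rfl⟩, mem_lineSet_self _ _,
      ⟨1, by rw [one_smul]; abel⟩, ⟨t, ht⟩⟩

lemma col_perm {g : Equiv.Perm V} (hg : MapsOnto g (Lines F V)) (x y z : V) :
    Col F (g x) (g y) (g z) ↔ Col F x y z := by
  constructor
  · rintro ⟨ℓ, hℓ, hx, hy, hz⟩
    rw [← hg] at hℓ
    obtain ⟨m, hm, rfl⟩ := hℓ
    refine ⟨m, hm, ?_, ?_, ?_⟩
    · obtain ⟨w, hw, hwx⟩ := hx
      rwa [← g.injective hwx]
    · obtain ⟨w, hw, hwx⟩ := hy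
      rwa [← g.injective hwx]
    · obtain ⟨w, hw, hwx⟩ := hz
      rwa [← g.injective hwx]
  · rintro ⟨ℓ, hℓ, hx, hy, hz⟩
    refine ⟨g '' ℓ, ?_, mem_image_of_mem g hx, mem_image_of_mem g hy, mem_image_of_mem g hz⟩
    rw [← hg]
    exact mem_image_of_mem _ hℓ

/-- The incidence configuration characterising the fourth vertex of a parallelogram. -/
def Config (F : Type) {V : Type} [Field F] [AddCommGroup V] [Module F V] (a b c d : V) : Prop :=
  (∀ z, ¬ (Col F a b z ∧ Col F c d z)) ∧ (∀ z, ¬ (Col F a c z ∧ Col F b d z)) ∧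
    ∃ p q, p ≠ q ∧ Col F a b p ∧ Col F a c q ∧ Col F p q d

lemma config_perm {g : Equiv.Perm V} (hg : MapsOnto g (Lines F V)) {a b c d : V}
    (h : Config F a b c d) : Config F (g a) (g b) (g c) (g d) := by
  obtain ⟨h1, h2, p, q, hpq, h3, h4, h5⟩ := h
  refine ⟨fun z hz => h1 (g.symm z) ?_, fun z hz => h2 (g.symm z) ?_, g p, g q,
    fun h => hpq (g.injective h), (col_perm hg _ _ _).2 h3, (col_perm hg _ _ _).2 h4,
    (col_perm hg _ _ _).2 h5⟩
  · rw [← col_perm hg, ← col_perm hg c d, g.apply_symm_apply]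
    exact hz
  · rw [← col_perm hg, ← col_perm hg b d, g.apply_symm_apply]
    exact hz

/-- There is a primitive cube root of unity. -/
lemma exists_omega (hF : Fintype.card F = 4) : ∃ w : F, w ≠ 0 ∧ w ≠ 1 ∧ w * w = w + 1 := by
  classical
  have h : ∃ w : F, w ∉ ({0, 1} : Finset F) := by
    by_contra hcon
    push Not at hcon
    have h1 : (Finset.univ : Finset F) ⊆ {0, 1} := fun x _ => hcon x
    have h2 := Finset.card_le_card h1
    rw [Finset.card_univ, hF] at h2
    have h3 : ({0, 1} : Finset F).card ≤ 2 := Finset.card_le_two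
    omega
  obtain ⟨w, hw⟩ := h
  rw [Finset.mem_insert, Finset.mem_singleton, not_or] at hw
  refine ⟨w, hw.1, hw.2, ?_⟩
  have h3 : w ^ 3 = 1 := by
    have := FiniteField.pow_card_sub_one_eq_one w hw.1
    rwa [hF] at this
  have h4 : (w - 1) * (w * w + w + 1) = 0 := by
    linear_combination h3
  rcases mul_eq_zero.1 h4 with h5 | h5
  · exact absurd (sub_eq_zero.1 h5) hw.2
  · have h6 := add_self_F (w + 1)
    linear_combination h5 - h6

/-- The field has no element outside `0, 1, t, t + 1`. -/
lemma eq_add_one (hF : Fintype.card F = 4) {s t : F} (ht0 : t ≠ 0) (ht1 : t ≠ 1) (hs0 : s ≠ 0)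
    (hs1 : s ≠ 1) (hst : s ≠ t) : s = t + 1 := by
  classical
  have h1 : ({0, 1, t, t + 1} : Finset F) = Finset.univ := by
    refine Finset.eq_univ_of_card _ ?_
    rw [hF, Finset.card_insert_of_notMem, Finset.card_insert_of_notMem,
      Finset.card_insert_of_notMem, Finset.card_singleton]
    · rw [Finset.mem_singleton]
      intro h
      exact one_ne_zero (left_eq_add.1 h)
    · rw [Finset.mem_insert, Finset.mem_singleton, not_or]
      refine ⟨ht1.symm, fun h => ht0 ?_⟩
      exact (right_eq_add.1 h)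
    · rw [Finset.mem_insert, Finset.mem_insert, Finset.mem_singleton, not_or, not_or]
      refine ⟨zero_ne_one, ht0.symm, fun h => ht1 ?_⟩
      have h6 := add_self_F (1 : F)
      linear_combination (-1 : F) * h - h6
  have h2 : s ∈ ({0, 1, t, t + 1} : Finset F) := by rw [h1]; exact Finset.mem_univ s
  simp only [Finset.mem_insert, Finset.mem_singleton] at h2
  tauto

lemma config_sum (hF : Fintype.card F = 4) {a b c : V} (hab : a ≠ b) (hac : a ≠ c)
    (hnc : ¬ Col F a b c) : Config F a b c (a + b + c) := by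
  obtain ⟨w, hw0, hw1, hww⟩ := exists_omega hF
  have hd1 : a + b + c - c = b - a := by
    have h := add_self_V F a
    have : a + b + c - c = b - a + (a + a) := by abel
    rw [this, h, add_zero]
  have hd2 : a + b + c - b = c - a := by
    have h := add_self_V F a
    have : a + b + c - b = c - a + (a + a) := by abel
    rw [this, h, add_zero]
  have hcd : c ≠ a + b + c := fun h => hab (sub_eq_zero.1 (by rw [← hd1, ← h, sub_self])).symm
  have hbd : b ≠ a + b + c := fun h => hac (sub_eq_zero.1 (by rw [← hd2, ← h, sub_self])).symm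
  have hind : ∀ s : F, c - a ≠ s • (b - a) := by
    intro s hs
    exact hnc ((col_iff hab).2 ⟨s, by rw [← hs]; abel⟩)
  refine ⟨?_, ?_, a + w • (b - a), a + (w * w) • (c - a), ?_, ?_, ?_, ?_⟩
  · rintro z ⟨h1, h2⟩
    rw [col_iff hab] at h1
    rw [col_iff hcd, hd1] at h2
    obtain ⟨s, hs⟩ := h1
    obtain ⟨t, ht⟩ := h2
    refine hind (s - t) ?_
    have h3 : c - a = (c + t • (b - a)) - (a + t • (b - a)) := by module
    rw [h3, ← ht, hs]
    module
  · rintro z ⟨h1, h2⟩
    rw [col_iff hac] at h1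
    rw [col_iff hbd, hd2] at h2
    obtain ⟨s, hs⟩ := h1
    obtain ⟨t, ht⟩ := h2
    have h4 : b - a = (s - t) • (c - a) := by
      have h3 : b - a = (b + t • (c - a)) - (a + t • (c - a)) := by module
      rw [h3, ← ht, hs]
      module
    by_cases hst : s - t = 0
    · rw [hst, zero_smul, sub_eq_zero] at h4
      exact hab h4.symm
    · refine hind (s - t)⁻¹ ?_
      rw [h4, smul_smul, inv_mul_cancel₀ hst, one_smul]
  · intro h
    refine hind ((w * w)⁻¹ * w) ?_
    have h3 : w • (b - a) = (w * w) • (c - a) := add_left_cancel h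
    rw [mul_smul, h3, smul_smul, inv_mul_cancel₀ (mul_ne_zero hw0 hw0), one_smul]
  · exact (col_iff hab).2 ⟨w, rfl⟩
  · exact (col_iff hac).2 ⟨w * w, rfl⟩
  · have hpq : a + w • (b - a) ≠ a + (w * w) • (c - a) := by
      intro h
      refine hind ((w * w)⁻¹ * w) ?_
      have h3 : w • (b - a) = (w * w) • (c - a) := add_left_cancel h
      rw [mul_smul, h3, smul_smul, inv_mul_cancel₀ (mul_ne_zero hw0 hw0), one_smul]
    rw [col_iff hpq]
    refine ⟨w, ?_⟩
    have e1 : w - w * w = 1 := by
      rw [hww]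
      have h6 := add_self_F (1 : F)
      linear_combination -h6
    have e2 : w * (w * w) = 1 := by
      rw [hww]
      have h6 := add_self_F w
      linear_combination hww + h6
    have e3 : a + w • (b - a) + w • (a + (w * w) • (c - a) - (a + w • (b - a))) =
        a + (w - w * w) • (b - a) + (w * (w * w)) • (c - a) := by module
    rw [e3, e1, e2, one_smul, one_smul]
    have h := add_self_V F a
    have : a + b + c = a + (b - a) + (c - a) + (a + a) := by abel
    rw [this, h, add_zero]

lemma sum_of_config {a b c d : V} (hab : a ≠ b) (hac : a ≠ c)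
    (h : Config F a b c d) : d = a + b + c := by
  obtain ⟨h1, h2, p, q, hpq, h3, h4, h5⟩ := h
  rw [col_iff hab] at h3
  rw [col_iff hac] at h4
  rw [col_iff hpq] at h5
  obtain ⟨s, hs⟩ := h3
  obtain ⟨r, hr⟩ := h4
  obtain ⟨t, ht⟩ := h5
  have hd : d = a + (s - t * s) • (b - a) + (t * r) • (c - a) := by
    rw [ht, hs, hr]; module
  generalize s - t * s = x at hd
  generalize t * r = y at hd
  have hcol0 : ∀ {x y : V}, x ≠ y → Col F x x y := by
    intro x y hxy
    refine ⟨lineSet F x (y - x), ⟨x, y - x, sub_ne_zero.2 hxy.symm, rfl⟩, mem_lineSet_self _ _,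
      mem_lineSet_self _ _, ⟨1, by rw [one_smul]; abel⟩⟩
  have hcd : c ≠ d := by
    intro h
    refine h1 a ⟨(col_iff hab).2 ⟨0, by rw [zero_smul, add_zero]⟩, ?_⟩
    rw [← h]
    exact hcol0 hac.symm
  have hbd : b ≠ d := by
    intro h
    refine h2 a ⟨(col_iff hac).2 ⟨0, by rw [zero_smul, add_zero]⟩, ?_⟩
    rw [← h]
    exact hcol0 hab.symm
  have hy : y = 1 := by
    by_contra hy
    have hy' : 1 - y ≠ 0 := fun h => hy (sub_eq_zero.1 h).symm
    refine h1 (a + ((1 - y)⁻¹ * x) • (b - a)) ⟨(col_iff hab).2 ⟨_, rfl⟩, (col_iff hcd).2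
      ⟨(1 - y)⁻¹, ?_⟩⟩
    have e1 : c + (1 - y)⁻¹ • (d - c) =
        a + ((1 - y)⁻¹ * x) • (b - a) + (1 - (1 - y)⁻¹ * (1 - y)) • (c - a) := by
      rw [hd]; module
    rw [e1, inv_mul_cancel₀ hy', sub_self, zero_smul, add_zero]
  have hx : x = 1 := by
    by_contra hx
    have hx' : 1 - x ≠ 0 := fun h => hx (sub_eq_zero.1 h).symm
    refine h2 (a + ((1 - x)⁻¹ * y) • (c - a)) ⟨(col_iff hac).2 ⟨_, rfl⟩, (col_iff hbd).2
      ⟨(1 - x)⁻¹, ?_⟩⟩
    have e1 : b + (1 - x)⁻¹ • (d - b) =
        a + ((1 - x)⁻¹ * y) • (c - a) + (1 - (1 - x)⁻¹ * (1 - x)) • (b - a) := by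
      rw [hd]; module
    rw [e1, inv_mul_cancel₀ hx', sub_self, zero_smul, add_zero]
  rw [hd, hx, hy, one_smul, one_smul]
  have h := add_self_V F a
  have : a + b + c = a + (b - a) + (c - a) + (a + a) := by abel
  rw [this, h, add_zero]

/-- Automorphisms of the system of lines preserve sums of three distinct points. -/
lemma perm_sum (hF : Fintype.card F = 4) {g : Equiv.Perm V} (hg : MapsOnto g (Lines F V))
    {a b c : V} (hab : a ≠ b) (hac : a ≠ c) (hbc : b ≠ c) :
    g (a + b + c) = g a + g b + g c := by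
  have gab : g a ≠ g b := fun h => hab (g.injective h)
  have gac : g a ≠ g c := fun h => hac (g.injective h)
  have gbc : g b ≠ g c := fun h => hbc (g.injective h)
  by_cases hcol : Col F a b c
  · have hcol' := (col_perm hg a b c).2 hcol
    obtain ⟨t, ht⟩ := (col_iff hab).1 hcol
    obtain ⟨t', ht'⟩ := (col_iff gab).1 hcol'
    have haa := add_self_V F a
    have hd : a + b + c = a + (t + 1) • (b - a) := by
      have e1 : a + b + c = a + (t + 1) • (b - a) + (a + a) := by rw [ht]; module
      rw [e1, haa, add_zero]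
    have hgd : Col F (g a) (g b) (g (a + b + c)) :=
      (col_perm hg _ _ _).2 ((col_iff hab).2 ⟨t + 1, hd⟩)
    obtain ⟨s, hs⟩ := (col_iff gab).1 hgd
    have hnbar : ∀ {x y : V}, x + y = 0 → x = y := fun {x y} h => by
      rw [← neg_V F y]
      exact eq_neg_of_add_eq_zero_left h
    have hda : a + b + c ≠ a := by
      intro h
      refine hbc (hnbar ?_)
      have : a + b + c = a + (b + c) := by abel
      rw [this] at h
      exact add_eq_left.1 h
    have hdb : a + b + c ≠ b := by
      intro h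
      refine hac (hnbar ?_)
      have : a + b + c = b + (a + c) := by abel
      rw [this] at h
      exact add_eq_left.1 h
    have hdc : a + b + c ≠ c := by
      intro h
      refine hab (hnbar ?_)
      exact add_eq_right.1 h
    have hs' : s = t' + 1 := by
      refine eq_add_one hF ?_ ?_ ?_ ?_ ?_
      · rintro rfl
        rw [zero_smul, add_zero] at ht'
        exact gac ht'.symm
      · rintro rfl
        rw [one_smul, add_sub_cancel] at ht'
        exact gbc ht'.symm
      · rintro rfl
        rw [zero_smul, add_zero] at hs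
        exact hda (g.injective hs)
      · rintro rfl
        rw [one_smul, add_sub_cancel] at hs
        exact hdb (g.injective hs)
      · rintro rfl
        rw [← ht'] at hs
        exact hdc (g.injective hs)
    rw [hs, hs']
    have e1 : g a + g b + g c = g a + (t' + 1) • (g b - g a) + (g a + g a) := by
      rw [ht']; module
    rw [e1, add_self_V F, add_zero]
  · have hcol' : ¬ Col F (g a) (g b) (g c) := fun h => hcol ((col_perm hg a b c).1 h)
    exact sum_of_config gab gac (config_perm hg (config_sum hF hab hac hcol))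

lemma eq_of_add_V {x y : V} (F : Type) [Field F] [CharP F 2] [Module F V] (h : x + y = 0) :
    x = y := by
  have h2 : y + y = 0 := by
    have h : ((1 : F) + 1) • y = 0 := by rw [CharTwo.add_self_eq_zero, zero_smul]
    rwa [add_smul, one_smul] at h
  exact add_right_cancel (h.trans h2.symm)

lemma image_mem_quads (hF : Fintype.card F = 4) {g : Equiv.Perm V}
    (hg : MapsOnto g (Lines F V)) {Q : Set V} (hQ : Q ∈ Quads V) : g '' Q ∈ Quads V := by
  classical
  obtain ⟨T, hT, hsum, rfl⟩ := hQ
  refine ⟨T.image g, ?_, ?_, (Finset.coe_image).symm⟩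
  · rw [Finset.card_image_of_injective _ g.injective, hT]
  · rw [Finset.sum_image g.injective.injOn]
    obtain ⟨d, S, hdS, rfl, hS⟩ := Finset.card_eq_succ.1 hT
    obtain ⟨a, b, c, hab, hac, hbc, rfl⟩ := Finset.card_eq_three.1 hS
    rw [Finset.sum_insert hdS] at hsum ⊢
    have hsum3 : ∀ f : V → V, ∑ x ∈ ({a, b, c} : Finset V), f x = f a + f b + f c := by
      intro f
      rw [Finset.sum_insert, Finset.sum_insert, Finset.sum_singleton, add_assoc]
      · simpa using hbc
      · simp [hab, hac]
    rw [hsum3 fun x => x] at hsum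
    rw [hsum3 g, eq_of_add_V F hsum, perm_sum hF hg hab hac hbc]
    exact add_self_V F _

lemma mapsOnto_symm {Ω : Type} {g : Equiv.Perm Ω} {𝓑 : Set (Set Ω)} (hg : MapsOnto g 𝓑) :
    MapsOnto g.symm 𝓑 := by
  unfold MapsOnto at hg ⊢
  conv_lhs => rw [← hg]
  rw [image_image]
  conv_rhs => rw [← image_id 𝓑]
  refine image_congr fun B _ => ?_
  rw [g.symm_image_image]
  rfl

lemma mapsOnto_quads (hF : Fintype.card F = 4) {g : Equiv.Perm V}
    (hg : MapsOnto g (Lines F V)) : MapsOnto g (Quads V) := by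
  apply Subset.antisymm
  · rintro _ ⟨Q, hQ, rfl⟩
    exact image_mem_quads hF hg hQ
  · intro Q hQ
    exact ⟨g.symm '' Q, image_mem_quads hF (mapsOnto_symm hg) hQ, g.image_symm_image Q⟩

lemma isSteiner_lines (hF : Fintype.card F = 4) {u v : V} (hu : u ≠ 0) (hv : v ≠ 0)
    (huv : ∀ t : F, v ≠ t • u) : IsSteiner 2 (Lines F V) := by
  classical
  refine ⟨?_, ?_, ?_⟩
  · rintro _ ⟨a, w, hw, rfl⟩
    have hinj : Function.Injective fun t : F => a + t • w := by
      intro s t hst
      have h : s • w = t • w := add_left_cancel hst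
      exact smul_left_injective F hw h
    have h1 : lineSet F a w = range fun t : F => a + t • w := by
      ext x
      constructor
      · rintro ⟨t, rfl⟩; exact ⟨t, rfl⟩
      · rintro ⟨t, rfl⟩; exact ⟨t, rfl⟩
    rw [h1, ← image_univ, hinj.encard_image, encard_univ, ENat.card_eq_coe_fintype_card, hF]
    norm_num
  · refine ⟨lineSet F 0 u, ⟨0, u, hu, rfl⟩, lineSet F 0 v, ⟨0, v, hv, rfl⟩, fun h => ?_⟩
    have h1 : v ∈ lineSet F 0 u := by
      rw [h]
      exact ⟨1, by rw [one_smul, zero_add]⟩
    obtain ⟨t, ht⟩ := h1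
    exact huv t (by rw [ht, zero_add])
  · intro s hs
    obtain ⟨x, y, hxy, rfl⟩ := Finset.card_eq_two.1 hs
    refine ⟨lineSet F x (y - x), ⟨⟨x, y - x, sub_ne_zero.2 hxy.symm, rfl⟩, ?_⟩, ?_⟩
    · intro z hz
      rw [Finset.coe_insert, Finset.coe_singleton] at hz
      rcases hz with rfl | hz
      · exact mem_lineSet_self _ _
      · rw [mem_singleton_iff.1 hz]
        exact ⟨1, by rw [one_smul]; abel⟩
    · rintro _ ⟨⟨a, w, hw, rfl⟩, hsub⟩
      exact lineSet_eq (hsub (by simp)) (hsub (by simp)) hxy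

/-- The block of `Quads V` through three given points. -/
lemma quad_key (F : Type) [Field F] [CharP F 2] [Module F V] [DecidableEq V] {a b c : V}
    (hab : a ≠ b) (hac : a ≠ c) (hbc : b ≠ c) :
    (insert (a + b + c) ({a, b, c} : Finset V)).card = 4 ∧
      ∑ x ∈ insert (a + b + c) ({a, b, c} : Finset V), x = 0 := by
  have hself : ∀ x : V, x + x = 0 := fun x => by
    have h : ((1 : F) + 1) • x = 0 := by rw [CharTwo.add_self_eq_zero, zero_smul]
    rwa [add_smul, one_smul] at h
  have hnot : a + b + c ∉ ({a, b, c} : Finset V) := by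
    intro h
    simp only [Finset.mem_insert, Finset.mem_singleton] at h
    rcases h with h | h | h
    · refine hbc (eq_of_add_V F ?_)
      have h2 : a + (b + c) = a := by rw [← add_assoc]; exact h
      exact add_eq_left.1 h2
    · refine hac (eq_of_add_V F ?_)
      have h2 : b + (a + c) = b := by
        have : b + (a + c) = a + b + c := by abel
        rw [this]; exact h
      exact add_eq_left.1 h2
    · exact hab (eq_of_add_V F (add_eq_right.1 h))
  refine ⟨?_, ?_⟩
  · rw [Finset.card_insert_of_notMem hnot, Finset.card_eq_three.2 ⟨a, b, c, hab, hac, hbc, rfl⟩]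
  · rw [Finset.sum_insert hnot, Finset.sum_insert, Finset.sum_insert, Finset.sum_singleton]
    · have : a + b + c + (a + (b + c)) = (a + b + c) + (a + b + c) := by abel
      rw [this, hself]
    · simpa using hbc
    · simp [hab, hac]

lemma isSteiner_quads (F : Type) [Field F] [CharP F 2] [Module F V] {u v w : V}
    (h0u : 0 ≠ u) (h0v : 0 ≠ v) (huv : u ≠ v) (hw0 : 0 ≠ w) (hwu : u ≠ w) (hwv : w ≠ v)
    (hwuv : w ≠ 0 + u + v) : IsSteiner 3 (Quads V) := by
  classical
  refine ⟨?_, ?_, ?_⟩
  · rintro _ ⟨T, hT, -, rfl⟩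
    rw [encard_coe_eq_coe_finsetCard, hT]
  · obtain ⟨c1, s1⟩ := quad_key F h0u h0v huv
    obtain ⟨c2, s2⟩ := quad_key F h0u hw0 hwu
    refine ⟨_, ⟨_, c1, s1, rfl⟩, _, ⟨_, c2, s2, rfl⟩, fun h => ?_⟩
    have h1 : w ∈ insert (0 + u + v) ({0, u, v} : Finset V) := by
      rw [Finset.coe_injective h]
      simp
    simp only [Finset.mem_insert, Finset.mem_singleton] at h1
    rcases h1 with h1 | h1 | h1 | h1
    · exact hwuv h1
    · exact hw0 h1.symm
    · exact hwu h1.symm
    · exact hwv h1
  · intro s hs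
    obtain ⟨a, b, c, hab, hac, hbc, rfl⟩ := Finset.card_eq_three.1 hs
    obtain ⟨c1, s1⟩ := quad_key F hab hac hbc
    refine ⟨_, ⟨⟨_, c1, s1, rfl⟩, ?_⟩, ?_⟩
    · exact Finset.coe_subset.2 (Finset.subset_insert _ _)
    · rintro _ ⟨⟨T, hT, hTs, rfl⟩, hsub⟩
      have hsub' : ({a, b, c} : Finset V) ⊆ T := Finset.coe_subset.1 hsub
      have hcard : (T \ {a, b, c}).card = 1 := by
        rw [Finset.card_sdiff_of_subset hsub', hT, hs]
      obtain ⟨z, hz⟩ := Finset.card_eq_one.1 hcard
      have hsum := Finset.sum_sdiff (f := fun x : V => x) hsub'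
      rw [hz, hTs, Finset.sum_singleton] at hsum
      have hzn : a + b + c ∉ ({a, b, c} : Finset V) := by
        intro h
        rw [Finset.insert_eq_of_mem h, hs] at c1
        omega
      have hsum3 : ∑ x ∈ ({a, b, c} : Finset V), x = a + b + c := by
        rw [Finset.sum_insert, Finset.sum_insert, Finset.sum_singleton, add_assoc]
        · simpa using hbc
        · simp [hab, hac]
      rw [hsum3] at hsum
      have hzeq : z = a + b + c := eq_of_add_V F hsum
      have hT2 : T = insert (a + b + c) ({a, b, c} : Finset V) := by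
        rw [← hzeq, ← Finset.sdiff_union_of_subset hsub', hz]
        rfl
      rw [hT2]

/-- Linear automorphisms act transitively on the nonzero vectors. -/
lemma exists_linear (F : Type) [Field F] [Module F V] {u w : V} (hu : u ≠ 0) (hw : w ≠ 0) :
    ∃ T : V ≃ₗ[F] V, T u = w := by
  by_cases h : ∃ c : F, w = c • u
  · obtain ⟨c, hc⟩ := h
    have hc0 : c ≠ 0 := by
      rintro rfl
      rw [zero_smul] at hc
      exact hw hc
    exact ⟨LinearEquiv.smulOfNeZero F V c hc0, hc.symm⟩
  · push Not at h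
    have hnot : u ∉ Submodule.span F {w - u} := by
      intro hmem
      obtain ⟨r, hr⟩ := Submodule.mem_span_singleton.1 hmem
      by_cases hr0 : r = 0
      · rw [hr0, zero_smul] at hr
        exact hu hr.symm
      · refine h (r⁻¹ * (1 + r)) ?_
        have h1 : (1 + r) • u = r • w := by
          rw [add_smul, one_smul]
          nth_rewrite 1 [← hr]
          module
        rw [mul_smul, h1, smul_smul, inv_mul_cancel₀ hr0, one_smul]
    obtain ⟨f, hf, hker⟩ := Submodule.exists_le_ker_of_notMem hnot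
    have hfw : f (w - u) = 0 := hker (Submodule.mem_span_singleton_self _)
    let φ : V →ₗ[F] F := (f u)⁻¹ • f
    have hφw : φ (w - u) = 0 := by
      change (f u)⁻¹ • f (w - u) = 0
      rw [hfw, smul_zero]
    have hφu : φ u = 1 := by
      change (f u)⁻¹ • f u = 1
      rw [smul_eq_mul, inv_mul_cancel₀ hf]
    refine ⟨{
      toFun := fun z => z + φ z • (w - u)
      invFun := fun z => z - φ z • (w - u)
      map_add' := fun x y => by rw [map_add]; module
      map_smul' := fun c x => by
        rw [map_smul, smul_eq_mul, RingHom.id_apply]; module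
      left_inv := fun z => ?_
      right_inv := fun z => ?_ }, ?_⟩
    · change z + φ z • (w - u) - φ (z + φ z • (w - u)) • (w - u) = z
      rw [map_add, map_smul, hφw, smul_zero, add_zero, add_sub_cancel_right]
    · change z - φ z • (w - u) + φ (z - φ z • (w - u)) • (w - u) = z
      rw [map_sub, map_smul, hφw, smul_zero, sub_zero, sub_add_cancel]
    · change u + φ u • (w - u) = w
      rw [hφu, one_smul, add_sub_cancel]

lemma affine_lines (T : V ≃ₗ[F] V) (x0 y0 : V) {ℓ : Set V} (hℓ : ℓ ∈ Lines F V)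
    (g : Equiv.Perm V) (hg : ∀ z, g z = T (z - x0) + y0) : g '' ℓ ∈ Lines F V := by
  obtain ⟨a, v, hv, rfl⟩ := hℓ
  refine ⟨g a, T v, fun h => hv (T.map_eq_zero_iff.1 h), ?_⟩
  have key : ∀ t : F, g (a + t • v) = g a + t • T v := by
    intro t
    rw [hg, hg, show a + t • v - x0 = (a - x0) + t • v by abel, map_add, map_smul]
    abel
  ext z
  constructor
  · rintro ⟨_, ⟨t, rfl⟩, rfl⟩
    exact ⟨t, key t⟩
  · rintro ⟨t, rfl⟩
    exact ⟨a + t • v, ⟨t, rfl⟩, key t⟩

lemma autTransitive_lines : AutTransitive 2 (Lines F V) := by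
  intro x y hx hy
  have hx01 : x 1 - x 0 ≠ 0 := fun h => by
    have := hx (sub_eq_zero.1 h)
    exact absurd this (by decide)
  have hy01 : y 1 - y 0 ≠ 0 := fun h => by
    have := hy (sub_eq_zero.1 h)
    exact absurd this (by decide)
  obtain ⟨T, hT⟩ := exists_linear F hx01 hy01
  let g : Equiv.Perm V := {
    toFun := fun z => T (z - x 0) + y 0
    invFun := fun z => T.symm (z - y 0) + x 0
    left_inv := fun z => by
      change T.symm (T (z - x 0) + y 0 - y 0) + x 0 = z
      rw [add_sub_cancel_right, T.symm_apply_apply, sub_add_cancel]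
    right_inv := fun z => by
      change T (T.symm (z - y 0) + x 0 - x 0) + y 0 = z
      rw [add_sub_cancel_right, T.apply_symm_apply, sub_add_cancel] }
  refine ⟨g, ?_, ?_⟩
  · apply Subset.antisymm
    · rintro _ ⟨ℓ, hℓ, rfl⟩
      exact affine_lines T (x 0) (y 0) hℓ g fun _ => rfl
    · intro ℓ hℓ
      exact ⟨g.symm '' ℓ, affine_lines T.symm (y 0) (x 0) hℓ g.symm fun _ => rfl,
        g.image_symm_image ℓ⟩
  · intro i
    fin_cases i
    · change T (x 0 - x 0) + y 0 = y 0
      rw [sub_self, map_zero, zero_add]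
    · change T (x 1 - x 0) + y 0 = y 1
      rw [hT, sub_add_cancel]

end General

/-- **Main result.** There are `k, l ≥ 2` with `k ≠ l` (namely `k = 2`, `l = 3`), a countably
infinite set `Ω` and a Steiner `k`-system on `Ω` whose automorphism group is `k`-transitive and
preserves a Steiner `l`-system. -/
theorem result : ∃ (k l : ℕ), 2 ≤ k ∧ 2 ≤ l ∧ k ≠ l ∧ ∃ (Ω : Type), Countable Ω ∧ Infinite Ω ∧
    ∃ 𝓑 : Set (Set Ω), IsSteiner k 𝓑 ∧ AutTransitive k 𝓑 ∧
      ∃ 𝓒 : Set (Set Ω), IsSteiner l 𝓒 ∧ ∀ g : Equiv.Perm Ω, MapsOnto g 𝓑 → MapsOnto g 𝓒 := by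
  classical
  have hfin : Finite (GaloisField 2 2) := inferInstance
  let _ : Fintype (GaloisField 2 2) := Fintype.ofFinite _
  have hF : Fintype.card (GaloisField 2 2) = 4 := by
    rw [← Nat.card_eq_fintype_card, GaloisField.card 2 2 (by norm_num)]
    norm_num
  let E : ℕ → (ℕ →₀ GaloisField 2 2) := fun n => Finsupp.single n 1
  have hval : ∀ n m, n ≠ m → E n m = 0 := fun n m h => Finsupp.single_eq_of_ne h.symm
  have hval1 : ∀ n, E n n = 1 := fun n => Finsupp.single_eq_same
  refine ⟨2, 3, le_refl 2, by norm_num, by norm_num, ℕ →₀ GaloisField 2 2, inferInstance,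
    inferInstance, Lines (GaloisField 2 2) _, ?_, autTransitive_lines, Quads _, ?_, ?_⟩
  · refine isSteiner_lines hF (u := E 0) (v := E 1) ?_ ?_ ?_
    · intro h
      have := DFunLike.congr_fun h 0
      rw [hval1] at this
      exact one_ne_zero this
    · intro h
      have := DFunLike.congr_fun h 1
      rw [hval1] at this
      exact one_ne_zero this
    · intro t h
      have := DFunLike.congr_fun h 1
      rw [hval1, Finsupp.smul_apply, hval 0 1 (by norm_num), smul_zero] at this
      exact one_ne_zero this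
  · refine isSteiner_quads (GaloisField 2 2) (u := E 0) (v := E 1) (w := E 2) ?_ ?_ ?_ ?_ ?_ ?_ ?_
    · intro h
      have := DFunLike.congr_fun h 0
      rw [hval1] at this
      exact zero_ne_one this
    · intro h
      have := DFunLike.congr_fun h 1
      rw [hval1] at this
      exact zero_ne_one this
    · intro h
      have := DFunLike.congr_fun h 0
      rw [hval1, hval 1 0 (by norm_num)] at this
      exact one_ne_zero this
    · intro h
      have := DFunLike.congr_fun h 2
      rw [hval1] at this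
      exact zero_ne_one this
    · intro h
      have := DFunLike.congr_fun h 0
      rw [hval1, hval 2 0 (by norm_num)] at this
      exact one_ne_zero this
    · intro h
      have := DFunLike.congr_fun h 2
      rw [hval1, hval 1 2 (by norm_num)] at this
      exact one_ne_zero this
    · intro h
      have := DFunLike.congr_fun h 2
      rw [hval1, Finsupp.add_apply, Finsupp.add_apply, hval 0 2 (by norm_num),
        hval 1 2 (by norm_num)] at this
      simp at this
  · intro g hg
    exact mapsOnto_quads hF hg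

end Pool.Agent.Results.MP_19fe04_lc.SteinerPair
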